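import Mathlib

set_option autoImplicit false

namespace Pool.Agent.Results.MP_49573d_co.EvenExact

open Finset
open scoped symmDiff

abbrev Rl (n : ℕ) := Finset (Fin n × Fin n)

def PO {n : ℕ} (P : Rl n) : Prop :=
  (∀ a, (a, a) ∉ P) ∧ ∀ a b c, (a, b) ∈ P → (b, c) ∈ P → (a, c) ∈ P
def Inc {n : ℕ} (P : Rl n) (a b : Fin n) : Prop := (a, b) ∉ P ∧ (b, a) ∉ P
def Weak {n : ℕ} (P : Rl n) : Prop := PO P ∧ ∀ a b c, Inc P a b → Inc P b c → Inc P a c
def Intv {n : ℕ} (P : Rl n) : Prop :=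
  PO P ∧ ∀ a b c d, (a, b) ∈ P → (c, d) ∈ P → (a, d) ∈ P ∨ (c, b) ∈ P
def Semi {n : ℕ} (P : Rl n) : Prop :=
  Intv P ∧ ∀ a b c d, (a, b) ∈ P → (b, c) ∈ P → (a, d) ∈ P ∨ (d, c) ∈ P

noncomputable def F {n : ℕ} (R : Rl n → Prop) (v : ℕ) : ℕ :=
  sSup {m | ∃ π : Fin v → Rl n, (∀ i, R (π i)) ∧ m = sInf {d | ∃ s, R s ∧ d = ∑ i, #(π i ∆ s)}}

def L (n : ℕ) : Rl n := univ.filter fun p => p.1 < p.2
def L' (n : ℕ) : Rl n := univ.filter fun p => p.2 < p.1

theorem size {n : ℕ} {P : Rl n} (h : PO P) : 2 * #P ≤ n * n - n := by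
  have d : Disjoint P (P.image Prod.swap) := disjoint_left.2 fun ⟨a, b⟩ h1 h2 => by
    obtain ⟨⟨c, e⟩, h3, h4⟩ := mem_image.1 h2
    cases h4
    exact h.1 _ (h.2 _ _ _ h1 h3)
  have s : P ∪ P.image Prod.swap ⊆ univ.offDiag := fun ⟨a, b⟩ q => by
    simp only [mem_offDiag, mem_univ, true_and]
    rintro rfl
    rcases mem_union.1 q with q | q
    · exact h.1 _ q
    · obtain ⟨⟨c, e⟩, h3, h4⟩ := mem_image.1 q
      cases h4
      exact h.1 _ h3
  have := card_le_card s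
  rw [card_union_of_disjoint d, card_image_of_injective _ Prod.swap_injective, offDiag_card] at this
  simp at this
  omega

theorem tri {n : ℕ} (s : Rl n) : n * n - n ≤ #(L n ∆ s) + #(L' n ∆ s) := by
  have : (univ : Finset (Fin n)).offDiag ⊆ L n ∆ s ∪ L' n ∆ s := fun ⟨a, b⟩ q => by
    have q' : a ≠ b := by simpa using q
    by_cases h : (a, b) ∈ s <;> simp [L, L', mem_symmDiff, h] <;> omega
  have := (card_le_card this).trans (card_union_le _ _)
  simpa [offDiag_card] using this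

theorem gen {n : ℕ} (R : Rl n → Prop) (h : ∀ P, R P → PO P) (h0 : R ∅) (h1 : R (L n))
    (h2 : R (L' n)) (v : ℕ) : v / 2 * (n * n - n) ≤ F R v ∧ 2 * F R v ≤ v * (n * n - n) := by
  have ub : ∀ m ∈ {m | ∃ π : Fin v → Rl n, (∀ i, R (π i)) ∧
      m = sInf {d | ∃ s, R s ∧ d = ∑ i, #(π i ∆ s)}}, m ≤ v * (n * n - n) / 2 := by
    rintro _ ⟨π, a, rfl⟩
    refine le_trans (Nat.sInf_le (m := ∑ i, #(π i ∆ ∅)) ⟨∅, h0, rfl⟩)
      ((Nat.le_div_iff_mul_le two_pos).2 ?_)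
    rw [sum_mul]
    refine (sum_le_card_nsmul _ _ (n * n - n) fun i _ => ?_).trans (by simp)
    have := size (h _ (a i))
    rw [← bot_eq_empty, symmDiff_bot]
    omega
  refine ⟨le_trans ?_ (le_csSup ⟨_, ub⟩ ⟨fun i => if i.1 % 2 = 0 then L n else L' n,
    fun i => by dsimp only; split_ifs <;> assumption, rfl⟩), ?_⟩
  · refine le_csInf ⟨_, ∅, h0, rfl⟩ ?_
    rintro _ ⟨s, -, rfl⟩
    rw [Fin.sum_univ_eq_sum_range (fun i => #((if i % 2 = 0 then L n else L' n) ∆ s))]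
    refine le_trans ?_ (sum_le_sum_of_subset (range_subset_range.2 (Nat.mul_div_le v 2)))
    generalize v / 2 = p
    induction p with
    | zero => simp
    | succ p ih =>
      rw [Nat.mul_succ 2, sum_range_succ, sum_range_succ, if_pos (by omega), if_neg (by omega),
        Nat.succ_mul]
      have := tri s
      omega
  · have : F R v ≤ v * (n * n - n) / 2 := csSup_le' ub
    omega

theorem both (n v : ℕ) (R : Rl n → Prop) (hR : R = Weak ∨ R = Semi ∨ R = Intv ∨ R = PO) :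
    (Even v → 2 * F R v = v * (n * n - n)) ∧
    v / 2 * (n * n - n) ≤ F R v ∧ 2 * F R v ≤ v * (n * n - n) := by
  have g : v / 2 * (n * n - n) ≤ F R v ∧ 2 * F R v ≤ v * (n * n - n) := by
    rcases hR with rfl | rfl | rfl | rfl
    · refine gen _ (fun _ h => h.1) ?_ ?_ ?_ v <;> simp [Weak, PO, Inc, L, L'] <;> grind
    · refine gen _ (fun _ h => h.1.1) ?_ ?_ ?_ v <;> simp [Semi, Intv, PO, L, L'] <;> grind
    · refine gen _ (fun _ h => h.1) ?_ ?_ ?_ v <;> simp [Intv, PO, L, L'] <;> grind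
    · refine gen _ (fun _ h => h) ?_ ?_ ?_ v <;> simp [PO, L, L'] <;> grind
  refine ⟨?_, g⟩
  rintro ⟨p, rfl⟩
  rw [show (p + p) / 2 = p by omega, add_mul] at g
  rw [add_mul]
  omega

theorem result (n v : ℕ) (R : Rl n → Prop) (hR : R = Weak ∨ R = Semi ∨ R = Intv ∨ R = PO)
    (hv : Even v) : 2 * F R v = v * (n * n - n) := (both n v R hR).1 hv

end Pool.Agent.Results.MP_49573d_co.EvenExact
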